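import Mathlib
import Pool.Agent.MP92.Main

set_option autoImplicit false

open Filter Topology Set
open scoped InnerProductSpace ContDiff

namespace Pool.Agent.Results.MP_92a224_gt.FiniteClass

/-- The Euclidean plane. -/
abbrev E2 := EuclideanSpace ℝ (Fin 2)

/-- Euclidean three-space. -/
abbrev E3 := EuclideanSpace ℝ (Fin 3)

/-- `f` represents a `C^k` surface germ at `0`: on some open disc centred at `0` it is a `C^k`
immersion. -/
def IsSurfaceGerm (k : WithTop ℕ∞) (f : E2 → E3) : Prop :=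
  ∃ r : ℝ, 0 < r ∧ ContDiffOn ℝ k f (Metric.ball 0 r) ∧
    ∀ x ∈ Metric.ball (0 : E2) r, Function.Injective (fderiv ℝ f x)

/-- `φ` is a `C^k` diffeomorphism between open neighbourhoods of `0` with `φ 0 = 0`. -/
structure IsLocalDiffeo (k : WithTop ℕ∞) (φ : OpenPartialHomeomorph E2 E2) : Prop where
  zero_mem : (0 : E2) ∈ φ.source
  map_zero : φ 0 = 0
  contDiffOn : ContDiffOn ℝ k φ φ.source
  contDiffOn_symm : ContDiffOn ℝ k φ.symm φ.target

/-- The first fundamental form of `f` at `x`. -/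
noncomputable def firstForm (f : E2 → E3) (x v w : E2) : ℝ := ⟪fderiv ℝ f x v, fderiv ℝ f x w⟫_ℝ

/-- The germs of `f` and `g` are isometric. -/
def GermIsometric (k : WithTop ℕ∞) (f g : E2 → E3) : Prop :=
  ∃ φ : OpenPartialHomeomorph E2 E2, IsLocalDiffeo k φ ∧
    ∀ᶠ x in 𝓝 (0 : E2), ∀ v w, firstForm (g ∘ φ) x v w = firstForm f x v w

/-- The germs of `f` and `g` are congruent. -/
def GermCongruent (k : WithTop ℕ∞) (f g : E2 → E3) : Prop :=
  ∃ φ : OpenPartialHomeomorph E2 E2, IsLocalDiffeo k φ ∧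
    ∃ A : E3 ≃ᵢ E3, ∀ᶠ x in 𝓝 (0 : E2), g (φ x) = A (f x)

/-- The germ of `f` is locally uniquely determined by its metric in the class `C^k`. -/
def UniquelyDetermined (k : WithTop ℕ∞) (f : E2 → E3) : Prop :=
  IsSurfaceGerm k f ∧ ∀ g : E2 → E3, IsSurfaceGerm k g → GermIsometric k f g → GermCongruent k f g

open Pool.Agent.MP92 in
theorem exists_germ (m : ℕ) : ∃ f : E2 → E3, UniquelyDetermined ((m + 2 : ℕ) : WithTop ℕ∞) f := by
  obtain ⟨u, huc, hu⟩ := main_plane m
  let ι : ℂ ≃ₗᵢ[ℝ] E2 := Complex.orthonormalBasisOneI.repr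
  let f : E2 → E3 := fun x => graph u (ι.symm x)
  have h1m : (1 : WithTop ℕ∞) ≤ ((m + 2 : ℕ) : WithTop ℕ∞) := by
    exact_mod_cast Nat.succ_le_succ (Nat.zero_le (m + 1))
  have hud : Differentiable ℝ u := (huc.of_le h1m).differentiable (by norm_num)
  have hgc : ContDiff ℝ (m + 2 : ℕ) (graph u) :=
    contDiff_iff_contDiffAt.2 fun z => contDiffAt_graph huc.contDiffAt
  have hfc : ContDiff ℝ (m + 2 : ℕ) f := hgc.comp ι.symm.contDiff
  have hfd : ∀ x, HasFDerivAt f ((fderiv ℝ (graph u) (ι.symm x)).comp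
      (ι.symm.toContinuousLinearEquiv : E2 →L[ℝ] ℂ)) x := by
    intro x
    exact ((hgc.of_le h1m).differentiable (by norm_num) (ι.symm x)).hasFDerivAt.comp x
      (ι.symm.toContinuousLinearEquiv : E2 →L[ℝ] ℂ).hasFDerivAt
  refine ⟨f, ⟨1, one_pos, hfc.contDiffOn, ?_⟩, ?_⟩
  · intro x _
    rw [(hfd x).fderiv, injective_iff_map_eq_zero]
    intro v hv
    have h1 : fderiv ℝ (graph u) (ι.symm x) (ι.symm v) = 0 := hv
    rw [fderiv_graph_apply (hud _)] at h1
    have e0 := congrArg (fun y : E3 => y 0) h1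
    have e1 := congrArg (fun y : E3 => y 1) h1
    simp at e0 e1
    have h2 : ι.symm v = 0 := Complex.ext e0 e1
    simpa using h2
  · rintro g ⟨r, hr, hgr, -⟩ ⟨φ, hφ, hmet⟩
    refine ⟨φ, hφ, ?_⟩
    let F : ℂ → E3 := fun z => g (φ (ι z))
    have hι0 : ι 0 = 0 := map_zero ι
    have hg0 : ContDiffAt ℝ (m + 2 : ℕ) g (φ (ι 0)) := by
      rw [hι0, hφ.map_zero]
      exact hgr.contDiffAt (Metric.ball_mem_nhds 0 hr)
    have hφ0 : ContDiffAt ℝ (m + 2 : ℕ) φ (ι 0) := by
      rw [hι0]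
      exact hφ.contDiffOn.contDiffAt (φ.open_source.mem_nhds hφ.zero_mem)
    have hgφ : ContDiffAt ℝ (m + 2 : ℕ) (g ∘ φ) (ι 0) := hg0.comp (ι 0) hφ0
    have hF : ContDiffAt ℝ (m + 2 : ℕ) F 0 :=
      ContDiffAt.comp (g := g ∘ φ) (f := fun z => ι z) 0 hgφ ι.contDiff.contDiffAt
    have hgφd : ∀ᶠ x in 𝓝 (0 : E2), DifferentiableAt ℝ (g ∘ φ) x := by
      rw [hι0] at hgφ
      have := (hgφ.of_le h1m).eventually (by simp)
      filter_upwards [this] with x hx using hx.differentiableAt (by norm_num)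
    have hιt : Tendsto (fun z => ι z) (𝓝 0) (𝓝 0) := by
      have := ι.continuous.tendsto 0
      rwa [hι0] at this
    have hFm : ∀ᶠ z in 𝓝 (0 : ℂ), SameMetric F u z := by
      filter_upwards [hιt.eventually hmet, hιt.eventually hgφd] with z h1 h2 v w
      have hFd : HasFDerivAt F ((fderiv ℝ (g ∘ φ) (ι z)).comp
          (ι.toContinuousLinearEquiv : ℂ →L[ℝ] E2)) z :=
        h2.hasFDerivAt.comp z (ι.toContinuousLinearEquiv : ℂ →L[ℝ] E2).hasFDerivAt
      have h3 := h1 (ι v) (ι w)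
      simp only [firstForm] at h3
      rw [(hfd (ι z)).fderiv] at h3
      rw [hFd.fderiv]
      have h4 := graph_metric (hud z) v w
      have e1 : ∀ v, ((fderiv ℝ (graph u) (ι.symm (ι z))).comp
          (ι.symm.toContinuousLinearEquiv : E2 →L[ℝ] ℂ)) (ι v) = fderiv ℝ (graph u) z v := by
        intro v
        simp
      rw [e1, e1, h4] at h3
      exact h3
    obtain ⟨A, hA⟩ := hu F hF hFm
    refine ⟨A, ?_⟩
    have hιst : Tendsto (fun x => ι.symm x) (𝓝 0) (𝓝 0) := by
      have := ι.symm.continuous.tendsto 0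
      rwa [map_zero] at this
    filter_upwards [hιst.eventually hA] with x hx
    simpa [F] using hx

/-- For every finite `k ≥ 2` there is a `C^k` surface germ which is locally uniquely determined by
its metric in the class `C^k`. -/
theorem result : ∀ k : ℕ, 2 ≤ k → ∃ f : E2 → E3, UniquelyDetermined (k : WithTop ℕ∞) f := by
  intro k hk
  obtain ⟨m, rfl⟩ := Nat.exists_eq_add_of_le' hk
  exact exists_germ m

end Pool.Agent.Results.MP_92a224_gt.FiniteClass
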